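import Pool.Agent.H69.Bd2

open MeasureTheory Filter Topology

namespace Pool.Agent.Results.MP_0c6837_al.NotFree

theorem result :
    ∃ (n : ℕ) (X : Type) (_ : TopologicalSpace X) (_ : CompactSpace X) (_ : T2Space X)
      (_ : Nonempty X) (_ : MeasurableSpace X) (_ : BorelSpace X)
      (_ : MulAction (FreeGroup (Fin n)) X) (_ : ContinuousConstSMul (FreeGroup (Fin n)) X),
      (∀ g : FreeGroup (Fin n), (∀ x : X, g • x = x) → g = 1) ∧
      (∀ x : X, Dense (MulAction.orbit (FreeGroup (Fin n)) x)) ∧
      (∀ μ : ProbabilityMeasure X, ∃ x : X, diracProba x ∈ closure (Set.range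
        fun g : FreeGroup (Fin n) =>
          μ.map (f := fun y : X => g • y) (continuous_const_smul g).measurable.aemeasurable)) ∧
      ¬ Dense {x : X | MulAction.stabilizer (FreeGroup (Fin n)) x = ⊥} := by
  refine ⟨4, H69.Bd.X, inferInstance, inferInstance, inferInstance, ⟨⟨_, H69.Bd.XS_diag (0, 0)⟩⟩,
    inferInstance, inferInstance, inferInstance, inferInstance,
    fun g h => H69.Bd.faith fun y hy => congrArg Subtype.val (h ⟨y, hy⟩), fun x => ?_, fun μ => ?_,
    fun h => ?_⟩
  · rw [Subtype.dense_iff]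
    refine (H69.Bd.mini x).trans (closure_mono ?_)
    rintro _ ⟨w, rfl⟩
    exact ⟨_, ⟨w, rfl⟩, rfl⟩
  · obtain ⟨w, hw⟩ := H69.Bd.prox (μ : Measure H69.Bd.X) (0, 0)
    refine ⟨⟨_, H69.Bd.XS_diag (0, 0)⟩, mem_closure_of_tendsto (b := atTop) (f := fun n => μ.map
      (f := fun y => w n • y) (continuous_const_smul (w n)).measurable.aemeasurable) ?_
      (Eventually.of_forall fun n => ⟨w n, rfl⟩)⟩
    rw [ProbabilityMeasure.tendsto_iff_forall_integral_tendsto]
    intro f
    simp only [ProbabilityMeasure.toMeasure_map, fun n => integral_map (μ := μ) (φ := fun y => w n • y)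
      (continuous_const_smul (w n)).measurable.aemeasurable f.continuous.aestronglyMeasurable]
    have := tendsto_integral_of_dominated_convergence (μ := (μ : Measure H69.Bd.X))
      (F := fun n x => f (w n • x)) (f := fun _ => f ⟨_, H69.Bd.XS_diag (0, 0)⟩)
      (fun _ => ‖f‖) (fun n => (f.continuous.comp (continuous_const_smul _)).aestronglyMeasurable)
      (integrable_const _) (fun n => Eventually.of_forall fun x => f.norm_coe_le_norm _)
      (hw.mono fun x hx => (f.continuous.tendsto _).comp hx)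
    simpa [diracProba] using this
  · have o : IsOpen {x : H69.Bd.X | (x.1.1.1, x.1.2.1) = (3, 3)} :=
      (isOpen_discrete {((3 : H69.Bd.L), (3 : H69.Bd.L))}).preimage
        (f := fun x : H69.Bd.X => (x.1.1.1, x.1.2.1)) (by fun_prop)
    obtain ⟨x, a, b⟩ := h.inter_open_nonempty _ o ⟨⟨_, H69.Bd.XS_diag (3, 0)⟩, rfl⟩
    have := (Subgroup.eq_bot_iff_forall _).1 b _
      (H69.Bd.fixes (congrArg Prod.fst a) (congrArg Prod.snd a))
    exact absurd (congrArg FreeGroup.toWord this) (by decide)

end Pool.Agent.Results.MP_0c6837_al.NotFree
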